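import Mathlib

set_option autoImplicit false

open Finset

namespace Pool.Agent.Work.MP_2780b6_an

/-- `k` maximises `W j * x ^ j`. -/
def Mx (W : ℕ → ℝ) (x : ℝ) (k : ℕ) : Prop := 0 < W k ∧ ∀ j, W j * x ^ j ≤ W k * x ^ k

/-- nonnegative weights, supported in `[0,N]`, not all zero -/
structure Adm (W : ℕ → ℝ) (N : ℕ) : Prop where
  nonneg : ∀ j, 0 ≤ W j
  supp : ∀ j, N < j → W j = 0
  pos : ∃ j, 0 < W j

def Good (W : ℕ → ℝ) (k : ℕ) : Prop := ∃ x : ℝ, 0 < x ∧ Mx W x k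

def InR (W : ℕ → ℝ) (j : ℕ) : Prop := (∃ g, g ≤ j ∧ Good W g) ∧ (∃ g, j ≤ g ∧ Good W g)

variable {W : ℕ → ℝ} {N : ℕ}

theorem exists_Mx (h : Adm W N) {x : ℝ} (hx : 0 < x) : ∃ k, Mx W x k := by
  obtain ⟨k, hk, hmax⟩ := Finset.exists_max_image (Finset.range (N + 1)) (fun j => W j * x ^ j)
    ⟨0, by simp⟩
  obtain ⟨j0, hj0⟩ := h.pos
  have hall : ∀ j, W j * x ^ j ≤ W k * x ^ k := by
    intro j
    by_cases hj : j ∈ Finset.range (N + 1)
    · exact hmax j hj
    · have : N < j := by simpa using hj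
      rw [h.supp j this, zero_mul]
      exact mul_nonneg (h.nonneg k) (pow_nonneg hx.le _)
  refine ⟨k, ?_, hall⟩
  have h1 : 0 < W j0 * x ^ j0 := mul_pos hj0 (pow_pos hx _)
  have h2 : 0 < W k * x ^ k := lt_of_lt_of_le h1 (hall j0)
  exact (pos_iff_pos_of_mul_pos h2).2 (pow_pos hx _)

theorem Mx.good {x : ℝ} {k : ℕ} (hx : 0 < x) (h : Mx W x k) : Good W k := ⟨x, hx, h⟩

theorem Mx.eq {x : ℝ} {i k : ℕ} (hi : Mx W x i) (hk : Mx W x k) :
    W i * x ^ i = W k * x ^ k := le_antisymm (hk.2 i) (hi.2 k)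

theorem exists_good_le (h : Adm W N) {j : ℕ} (hj : 0 < W j) : ∃ g, g ≤ j ∧ Good W g := by
  set Tt := ∑ k ∈ Finset.range (N + 1), W k with hTt
  have hTt0 : 0 ≤ Tt := Finset.sum_nonneg (fun k _ => h.nonneg k)
  have hle : ∀ k, W k ≤ Tt := by
    intro k
    by_cases hk : k ∈ Finset.range (N + 1)
    · exact Finset.single_le_sum (f := W) (fun k _ => h.nonneg k) hk
    · have : N < k := by simpa using hk
      rw [h.supp k this]; exact hTt0
  set x := min 1 (W j / (1 + Tt)) with hxdef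
  have hx : 0 < x := lt_min one_pos (div_pos hj (by linarith))
  have hx1 : x ≤ 1 := min_le_left _ _
  have hx2 : x ≤ W j / (1 + Tt) := min_le_right _ _
  obtain ⟨l, hl⟩ := exists_Mx h hx
  refine ⟨l, ?_, hl.good hx⟩
  by_contra hlt
  push Not at hlt
  have h1 := hl.2 j
  have h2 : x ^ l ≤ x ^ (j + 1) := pow_le_pow_of_le_one hx.le hx1 hlt
  have h3 : W l * x ^ l ≤ W l * x ^ (j + 1) := mul_le_mul_of_nonneg_left h2 (h.nonneg l)
  have h4 : W l * x < W j := by
    calc W l * x ≤ W l * (W j / (1 + Tt)) := mul_le_mul_of_nonneg_left hx2 (h.nonneg l)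
      _ = W j * (W l / (1 + Tt)) := by ring
      _ < W j * 1 := by
        apply mul_lt_mul_of_pos_left _ hj
        rw [div_lt_one (by linarith)]
        linarith [hle l]
      _ = W j := mul_one _
  have h5 : W l * x ^ (j + 1) < W j * x ^ j := by
    rw [pow_succ]
    calc W l * (x ^ j * x) = (W l * x) * x ^ j := by ring
      _ < W j * x ^ j := mul_lt_mul_of_pos_right h4 (pow_pos hx _)
  linarith

theorem exists_good_ge (h : Adm W N) {j : ℕ} (hj : 0 < W j) : ∃ g, j ≤ g ∧ Good W g := by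
  set Tt := ∑ k ∈ Finset.range (N + 1), W k with hTt
  have hTt0 : 0 ≤ Tt := Finset.sum_nonneg (fun k _ => h.nonneg k)
  have hle : ∀ k, W k ≤ Tt := by
    intro k
    by_cases hk : k ∈ Finset.range (N + 1)
    · exact Finset.single_le_sum (f := W) (fun k _ => h.nonneg k) hk
    · have : N < k := by simpa using hk
      rw [h.supp k this]; exact hTt0
  set x := max 1 ((1 + Tt) / W j) with hxdef
  have hx1 : 1 ≤ x := le_max_left _ _
  have hx : 0 < x := by linarith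
  have hx2 : (1 + Tt) / W j ≤ x := le_max_right _ _
  obtain ⟨l, hl⟩ := exists_Mx h hx
  refine ⟨l, ?_, hl.good hx⟩
  by_contra hlt
  push Not at hlt
  obtain ⟨m, rfl⟩ : ∃ m, j = m + 1 := ⟨j - 1, by omega⟩
  have h1 := hl.2 (m + 1)
  have h2 : x ^ l ≤ x ^ m := pow_le_pow_right₀ hx1 (by omega)
  have h3 : W l * x ^ l ≤ W l * x ^ m := mul_le_mul_of_nonneg_left h2 (h.nonneg l)
  have h4 : W l < W (m + 1) * x := by
    have h6 : 1 + Tt ≤ W (m + 1) * x := by
      rw [div_le_iff₀ hj] at hx2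
      linarith
    linarith [hle l]
  have h5 : W l * x ^ m < W (m + 1) * x ^ (m + 1) := by
    rw [pow_succ]
    calc W l * x ^ m < (W (m + 1) * x) * x ^ m := mul_lt_mul_of_pos_right h4 (pow_pos hx _)
      _ = W (m + 1) * (x ^ m * x) := by ring
  linarith

theorem inR_of_pos (h : Adm W N) {j : ℕ} (hj : 0 < W j) : InR W j :=
  ⟨exists_good_le h hj, exists_good_ge h hj⟩

/-- Between two good indices there is a common contact point. -/
theorem exists_between (h : Adm W N) {j : ℕ} (hj : InR W j) :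
    ∃ x : ℝ, 0 < x ∧ ∃ i k, i ≤ j ∧ j ≤ k ∧ Mx W x i ∧ Mx W x k := by
  classical
  by_cases hgj : Good W j
  · obtain ⟨x, hx, hm⟩ := hgj
    exact ⟨x, hx, j, j, le_rfl, le_rfl, hm, hm⟩
  obtain ⟨⟨g1, hg1, hG1⟩, ⟨g2, hg2, hG2⟩⟩ := hj
  -- largest good index at most j
  obtain ⟨i, hi, himax⟩ : ∃ i, (i ≤ j ∧ Good W i) ∧ ∀ g, g ≤ j → Good W g → g ≤ i := by
    have hne : ((Finset.range (j + 1)).filter (fun g => Good W g)).Nonempty :=
      ⟨g1, by simp only [Finset.mem_filter, Finset.mem_range]; exact ⟨by omega, hG1⟩⟩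
    refine ⟨Finset.max' _ hne, ?_, fun g hg hGg => Finset.le_max' _ g ?_⟩
    · have := Finset.max'_mem _ hne
      simp only [Finset.mem_filter, Finset.mem_range] at this
      exact ⟨by omega, this.2⟩
    · simp only [Finset.mem_filter, Finset.mem_range]; exact ⟨by omega, hGg⟩
  obtain ⟨k, hk, hkmin⟩ : ∃ k, (j ≤ k ∧ Good W k) ∧ ∀ g, j ≤ g → Good W g → k ≤ g := by
    have hne : ∃ k, j ≤ k ∧ Good W k := ⟨g2, hg2, hG2⟩
    exact ⟨Nat.find hne, Nat.find_spec hne, fun g hg hGg => Nat.find_min' hne ⟨hg, hGg⟩⟩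
  have hij : i ≠ j := fun e => hgj (e ▸ hi.2)
  have hkj : k ≠ j := fun e => hgj (e ▸ hk.2)
  have hik : i < k := by have := hi.1; have := hk.1; omega
  obtain ⟨xi, hxi, hmi⟩ := hi.2
  obtain ⟨xk, hxk, hmk⟩ := hk.2
  have hWi := hmi.1
  have hWk := hmk.1
  obtain ⟨d, rfl⟩ : ∃ d, k = i + (d + 1) := ⟨k - i - 1, by omega⟩
  -- the contact point
  obtain ⟨x, hx, hxd⟩ : ∃ x : ℝ, 0 < x ∧ x ^ (d + 1) = W i / W (i + (d + 1)) := by
    refine ⟨(W i / W (i + (d + 1))) ^ ((1 : ℝ) / ((d + 1 : ℕ) : ℝ)), Real.rpow_pos_of_pos (div_pos hWi hWk) _, ?_⟩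
    rw [← Real.rpow_natCast, ← Real.rpow_mul (div_pos hWi hWk).le]
    rw [one_div, inv_mul_cancel₀ (by positivity), Real.rpow_one]
  have heq : W i * x ^ i = W (i + (d + 1)) * x ^ (i + (d + 1)) := by
    rw [pow_add, hxd]; field_simp
  have hxi_le : xi ≤ x := by
    have h1 := hmi.2 (i + (d + 1))
    rw [pow_add] at h1
    have h2 : xi ^ (d + 1) ≤ W i / W (i + (d + 1)) := by
      rw [le_div_iff₀ hWk]
      have h3 : 0 < xi ^ i := pow_pos hxi _
      nlinarith
    rw [← hxd] at h2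
    exact le_of_pow_le_pow_left₀ (by omega) hx.le h2
  have hxk_ge : x ≤ xk := by
    have h1 := hmk.2 i
    rw [pow_add] at h1
    have h2 : W i / W (i + (d + 1)) ≤ xk ^ (d + 1) := by
      rw [div_le_iff₀ hWk]
      have h3 : 0 < xk ^ i := pow_pos hxk _
      nlinarith
    rw [← hxd] at h2
    exact le_of_pow_le_pow_left₀ (by omega) hxk.le h2
  obtain ⟨l, hl⟩ := exists_Mx h hx
  -- show that `i` (equivalently `k`) attains the maximum at `x`
  have hmax : W l * x ^ l ≤ W i * x ^ i := by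
    rcases le_total l j with hlj | hlj
    · have hli : l ≤ i := himax l hlj (hl.good hx)
      obtain ⟨e, rfl⟩ : ∃ e, i = l + e := ⟨i - l, by omega⟩
      have h1 := hmi.2 l
      have h2 : W l ≤ W (l + e) * xi ^ e := by
        rw [pow_add] at h1
        have h3 : 0 < xi ^ l := pow_pos hxi _
        nlinarith
      have h4 : xi ^ e ≤ x ^ e := pow_le_pow_left₀ hxi.le hxi_le e
      calc W l * x ^ l ≤ (W (l + e) * xi ^ e) * x ^ l :=
            mul_le_mul_of_nonneg_right h2 (pow_nonneg hx.le _)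
        _ ≤ (W (l + e) * x ^ e) * x ^ l := by
            apply mul_le_mul_of_nonneg_right _ (pow_nonneg hx.le _)
            exact mul_le_mul_of_nonneg_left h4 hWi.le
        _ = W (l + e) * x ^ (l + e) := by rw [pow_add]; ring
    · have hli : i + (d + 1) ≤ l := hkmin l hlj (hl.good hx)
      obtain ⟨e, rfl⟩ : ∃ e, l = i + (d + 1) + e := ⟨l - (i + (d + 1)), by omega⟩
      have h1 := hmk.2 (i + (d + 1) + e)
      have h2 : W (i + (d + 1) + e) * xk ^ e ≤ W (i + (d + 1)) := by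
        rw [pow_add] at h1
        have h3 : 0 < xk ^ (i + (d + 1)) := pow_pos hxk _
        nlinarith
      have h4 : x ^ e ≤ xk ^ e := pow_le_pow_left₀ hx.le hxk_ge e
      rw [heq]
      calc W (i + (d + 1) + e) * x ^ (i + (d + 1) + e)
          = (W (i + (d + 1) + e) * x ^ e) * x ^ (i + (d + 1)) := by rw [pow_add]; ring
        _ ≤ (W (i + (d + 1) + e) * xk ^ e) * x ^ (i + (d + 1)) := by
            apply mul_le_mul_of_nonneg_right _ (pow_nonneg hx.le _)
            exact mul_le_mul_of_nonneg_left h4 (h.nonneg _)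
        _ ≤ W (i + (d + 1)) * x ^ (i + (d + 1)) :=
            mul_le_mul_of_nonneg_right h2 (pow_nonneg hx.le _)
  refine ⟨x, hx, i, i + (d + 1), hi.1, hk.1, ⟨hWi, fun m => (hl.2 m).trans hmax⟩,
    ⟨hWk, fun m => ?_⟩⟩
  rw [← heq]
  exact (hl.2 m).trans hmax

/-- minimality of the contact value -/
theorem contact_le {x y : ℝ} (hx : 0 < x) (hy : 0 < y) {i j k l : ℕ}
    (hij : i ≤ j) (hjk : j ≤ k) (hi : Mx W x i) (hk : Mx W x k) (hl : Mx W y l) :
    W i * x ^ i / x ^ j ≤ W l * y ^ l / y ^ j := by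
  rcases le_total y x with hyx | hxy
  · obtain ⟨e, rfl⟩ : ∃ e, j = i + e := ⟨j - i, by omega⟩
    have h1 : W i * y ^ i / y ^ (i + e) ≤ W l * y ^ l / y ^ (i + e) :=
      div_le_div_of_nonneg_right (hl.2 i) (pow_nonneg hy.le _)
    refine le_trans ?_ h1
    have h2 : W i * x ^ i / x ^ (i + e) = W i / x ^ e := by
      rw [pow_add]; field_simp
    have h3 : W i * y ^ i / y ^ (i + e) = W i / y ^ e := by
      rw [pow_add]; field_simp
    rw [h2, h3]
    exact div_le_div_of_nonneg_left hi.1.le (pow_pos hy _) (pow_le_pow_left₀ hy.le hyx e)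
  · obtain ⟨e, rfl⟩ : ∃ e, k = j + e := ⟨k - j, by omega⟩
    have h1 : W (j + e) * y ^ (j + e) / y ^ j ≤ W l * y ^ l / y ^ j :=
      div_le_div_of_nonneg_right (hl.2 _) (pow_nonneg hy.le _)
    refine le_trans ?_ h1
    rw [hi.eq hk]
    have h2 : W (j + e) * x ^ (j + e) / x ^ j = W (j + e) * x ^ e := by
      rw [pow_add]; field_simp
    have h3 : W (j + e) * y ^ (j + e) / y ^ j = W (j + e) * y ^ e := by
      rw [pow_add]; field_simp
    rw [h2, h3]
    exact mul_le_mul_of_nonneg_left (pow_le_pow_left₀ hx.le hxy e) hk.1.le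

/-- The upper logarithmically concave hull of `W`. -/
theorem exists_hull (h : Adm W N) : ∃ V : ℕ → ℝ, (∀ j, W j ≤ V j) ∧ (∀ j, Good W j → V j = W j) ∧
    (∀ j, InR W j → 0 < V j) ∧
    (∀ m, InR W (m + 1) → ¬ Good W (m + 1) → V (m + 1) ^ 2 ≤ V m * V (m + 2)) := by
  classical
  have hex : ∀ j, ∃ v : ℝ, (¬ InR W j → v = 0) ∧ (InR W j → ∃ x : ℝ, 0 < x ∧ ∃ i k, i ≤ j ∧ j ≤ k ∧
      Mx W x i ∧ Mx W x k ∧ v = W i * x ^ i / x ^ j) := by
    intro j
    by_cases hj : InR W j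
    · obtain ⟨x, hx, i, k, hij, hjk, hi, hk⟩ := exists_between h hj
      exact ⟨_, fun h => absurd hj h, fun _ => ⟨x, hx, i, k, hij, hjk, hi, hk, rfl⟩⟩
    · exact ⟨0, fun _ => rfl, fun h => absurd h hj⟩
  choose V hV0 hV using hex
  refine ⟨V, ?_, ?_, ?_, ?_⟩
  · intro j
    by_cases hj : InR W j
    · obtain ⟨x, hx, i, k, hij, hjk, hi, hk, hv⟩ := hV j hj
      rw [hv, le_div_iff₀ (pow_pos hx _)]
      exact hi.2 j
    · rw [hV0 j hj]
      by_contra hc
      push Not at hc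
      exact hj (inR_of_pos h hc)
  · rintro j ⟨y, hy, hm⟩
    have hj : InR W j := ⟨⟨j, le_rfl, y, hy, hm⟩, ⟨j, le_rfl, y, hy, hm⟩⟩
    obtain ⟨x, hx, i, k, hij, hjk, hi, hk, hv⟩ := hV j hj
    apply le_antisymm
    · rw [hv]
      refine (contact_le hx hy hij hjk hi hk hm).trans (le_of_eq ?_)
      field_simp
    · rw [hv, le_div_iff₀ (pow_pos hx _)]
      exact hi.2 j
  · intro j hj
    obtain ⟨x, hx, i, k, hij, hjk, hi, hk, hv⟩ := hV j hj
    rw [hv]
    exact div_pos (mul_pos hi.1 (pow_pos hx _)) (pow_pos hx _)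
  · intro m hm hng
    obtain ⟨x, hx, i, k, hij, hjk, hi, hk, hv⟩ := hV (m + 1) hm
    have hi1 : i ≠ m + 1 := fun e => hng (e ▸ hi.good hx)
    have hk1 : k ≠ m + 1 := fun e => hng (e ▸ hk.good hx)
    have hRm : InR W m := ⟨⟨i, by omega, hi.good hx⟩, ⟨k, by omega, hk.good hx⟩⟩
    have hRm2 : InR W (m + 2) := ⟨⟨i, by omega, hi.good hx⟩, ⟨k, by omega, hk.good hx⟩⟩
    obtain ⟨x1, hx1, i1, k1, hij1, hjk1, hi1', hk1', hv1⟩ := hV m hRm
    obtain ⟨x2, hx2, i2, k2, hij2, hjk2, hi2', hk2', hv2⟩ := hV (m + 2) hRm2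
    have e1 : W i * x ^ i / x ^ m ≤ V m := by
      rw [hv1]; exact contact_le hx hx1 (by omega) (by omega) hi hk hi1'
    have e2 : W i * x ^ i / x ^ (m + 2) ≤ V (m + 2) := by
      rw [hv2]; exact contact_le hx hx2 (by omega) (by omega) hi hk hi2'
    have hp : 0 < W i * x ^ i := mul_pos hi.1 (pow_pos hx _)
    calc V (m + 1) ^ 2 = (W i * x ^ i / x ^ m) * (W i * x ^ i / x ^ (m + 2)) := by
          rw [hv]; field_simp; ring
      _ ≤ V m * V (m + 2) := mul_le_mul e1 e2 (by positivity) (le_trans (by positivity) e1)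

end Pool.Agent.Work.MP_2780b6_an
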