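import Mathlib

set_option autoImplicit false

open Polynomial Finset

namespace Pool.Agent.Work.MP_2780b6_an

/-- The operator multiplying the `j`-th coefficient by `w j`. -/
noncomputable def opD (w : ℕ → ℝ) (p : ℝ[X]) : ℝ[X] :=
  ∑ j ∈ Finset.range (p.natDegree + 1), monomial j (w j * p.coeff j)

theorem coeff_opD (w : ℕ → ℝ) (p : ℝ[X]) (j : ℕ) :
    (opD w p).coeff j = w j * p.coeff j := by
  unfold opD
  rw [Polynomial.finsetSum_coeff]
  simp only [coeff_monomial]
  rw [Finset.sum_ite_eq' ]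
  split_ifs with h
  · rfl
  · have : p.coeff j = 0 := by
      apply coeff_eq_zero_of_natDegree_lt
      simpa [Nat.lt_succ_iff] using h
    rw [this, mul_zero]

theorem opD_opD (w v : ℕ → ℝ) (p : ℝ[X]) : opD w (opD v p) = opD (fun j => w j * v j) p := by
  ext j; simp only [coeff_opD]; ring

theorem opD_one (p : ℝ[X]) : opD (fun _ => 1) p = p := by
  ext j; simp only [coeff_opD]; ring

theorem opD_ne_zero {w : ℕ → ℝ} {p : ℝ[X]} (hw : ∀ j, w j ≠ 0) (hp : p ≠ 0) : opD w p ≠ 0 := by
  intro h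
  apply hp
  ext j
  have := congrArg (fun q => coeff q j) h
  simp only [coeff_opD, coeff_zero] at this ⊢
  rcases mul_eq_zero.1 this with h1 | h1
  · exact absurd h1 (hw j)
  · exact h1

theorem opD_sub_eq (c : ℝ) (p : ℝ[X]) :
    opD (fun j => (j : ℝ) - c) p = X * derivative p - C c * p := by
  ext j
  rw [coeff_opD, coeff_sub, coeff_C_mul]
  cases j with
  | zero => simp
  | succ n =>
    rw [coeff_X_mul, coeff_derivative]
    push_cast
    ring

/-- positive roots with multiplicity -/
noncomputable def posR (p : ℝ[X]) : Multiset ℝ := p.roots.filter (fun x => 0 < x)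

theorem rootMultiplicity_opD_sub {c : ℝ} {p : ℝ[X]} (hc : ∀ j : ℕ, (j : ℝ) ≠ c) (hp : p ≠ 0)
    (t : ℝ) : p.rootMultiplicity t - 1 ≤ (opD (fun j => (j : ℝ) - c) p).rootMultiplicity t := by
  have hne : opD (fun j => (j : ℝ) - c) p ≠ 0 := opD_ne_zero (fun j => sub_ne_zero.2 (hc j)) hp
  rw [le_rootMultiplicity_iff hne, opD_sub_eq]
  apply dvd_sub
  · exact (pow_sub_one_dvd_derivative_of_pow_dvd (p.pow_rootMultiplicity_dvd t)).mul_left _
  · exact ((pow_dvd_pow _ (Nat.sub_le _ _)).trans (p.pow_rootMultiplicity_dvd t)).mul_left _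

theorem exists_root_opD_sub {c : ℝ} {p : ℝ[X]} {x y : ℝ} (hx : 0 < x) (hxy : x < y)
    (h1 : p.eval x = 0) (h2 : p.eval y = 0) :
    ∃ z ∈ Set.Ioo x y, (opD (fun j => (j : ℝ) - c) p).eval z = 0 := by
  have hcont : ContinuousOn (fun s : ℝ => s ^ (-c) * p.eval s) (Set.Icc x y) := by
    apply ContinuousOn.mul
    · intro s hs
      exact (Real.continuousAt_rpow_const s (-c) (Or.inl (by linarith [hs.1]))).continuousWithinAt
    · exact p.continuousOn
  obtain ⟨z, hz, hz2⟩ := exists_hasDerivAt_eq_zero (f := fun s : ℝ => s ^ (-c) * p.eval s)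
    (f' := fun s : ℝ => (-c) * s ^ (-c - 1) * p.eval s + s ^ (-c) * p.derivative.eval s)
    hxy hcont (by simp [h1, h2]) (by
      intro s hs
      have hs0 : 0 < s := lt_trans hx hs.1
      exact (Real.hasDerivAt_rpow_const (Or.inl hs0.ne')).mul (p.hasDerivAt s))
  refine ⟨z, hz, ?_⟩
  have hz0 : 0 < z := lt_trans hx hz.1
  have hpow : z ^ (-c) = z ^ (-c - 1) * z := by
    rw [← Real.rpow_add_one hz0.ne']; congr 1; ring
  rw [hpow] at hz2
  have h3 : z ^ (-c - 1) ≠ 0 := (Real.rpow_pos_of_pos hz0 _).ne'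
  rw [opD_sub_eq, eval_sub, eval_mul, eval_mul, eval_X, eval_C]
  have h4 : z ^ (-c - 1) * (z * p.derivative.eval z - c * p.eval z) = 0 := by
    linear_combination hz2
  rcases mul_eq_zero.1 h4 with h5 | h5
  · exact absurd h5 h3
  · exact h5

theorem mem_posR {p : ℝ[X]} (hp : p ≠ 0) {x : ℝ} : x ∈ posR p ↔ p.eval x = 0 ∧ 0 < x := by
  unfold posR
  rw [Multiset.mem_filter, mem_roots hp, IsRoot.def]

theorem count_posR {p : ℝ[X]} {x : ℝ} (hx : 0 < x) : (posR p).count x = p.rootMultiplicity x := by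
  unfold posR
  rw [Multiset.count_filter_of_pos hx, count_roots]

/-- Weighted Rolle theorem with multiplicities on the positive half line. -/
theorem card_posR_le_succ {c : ℝ} {p : ℝ[X]} (hc : ∀ j : ℕ, (j : ℝ) ≠ c) (hp : p ≠ 0) :
    Multiset.card (posR p) ≤ Multiset.card (posR (opD (fun j => (j : ℝ) - c) p)) + 1 := by
  set r := opD (fun j => (j : ℝ) - c) p with hr
  have hne : r ≠ 0 := opD_ne_zero (fun j => sub_ne_zero.2 (hc j)) hp
  have key : (posR p).toFinset.card ≤ ((posR r).toFinset \ (posR p).toFinset).card + 1 := by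
    refine Finset.card_le_sdiff_of_interleaved fun x hx y hy hxy hxy' => ?_
    rw [Multiset.mem_toFinset, mem_posR hp] at hx hy
    obtain ⟨z, hz1, hz2⟩ := exists_root_opD_sub (c := c) hx.2 hxy hx.1 hy.1
    refine ⟨z, ?_, hz1⟩
    rw [Multiset.mem_toFinset, mem_posR hne]
    exact ⟨hz2, lt_trans hx.2 hz1.1⟩
  calc
    Multiset.card (posR p) = ∑ x ∈ (posR p).toFinset, (posR p).count x :=
      (Multiset.toFinset_sum_count_eq _).symm
    _ = ∑ x ∈ (posR p).toFinset, ((posR p).count x - 1 + 1) :=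
      (Eq.symm <| Finset.sum_congr rfl fun _ hx => tsub_add_cancel_of_le <|
        Nat.succ_le_iff.2 <| Multiset.count_pos.2 <| Multiset.mem_toFinset.1 hx)
    _ = (∑ x ∈ (posR p).toFinset, ((posR p).count x - 1)) + (posR p).toFinset.card := by
      simp only [Finset.sum_add_distrib, Finset.card_eq_sum_ones]
    _ ≤ (∑ x ∈ (posR p).toFinset, (posR r).count x) +
          (((posR r).toFinset \ (posR p).toFinset).card + 1) := by
      apply add_le_add _ key
      apply Finset.sum_le_sum
      intro x hx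
      rw [Multiset.mem_toFinset, mem_posR hp] at hx
      rw [count_posR hx.2, count_posR hx.2]
      exact rootMultiplicity_opD_sub hc hp x
    _ ≤ (∑ x ∈ (posR p).toFinset, (posR r).count x) +
          ((∑ x ∈ (posR r).toFinset \ (posR p).toFinset, (posR r).count x) + 1) := by
      simp only [Finset.card_eq_sum_ones]
      gcongr with x hx
      rw [Nat.succ_le_iff, Multiset.count_pos, ← Multiset.mem_toFinset]
      exact (Finset.mem_sdiff.1 hx).1
    _ = Multiset.card (posR r) + 1 := by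
      rw [← add_assoc, ← Finset.sum_union Finset.disjoint_sdiff, Finset.union_sdiff_self_eq_union, ←
        Multiset.toFinset_sum_count_eq, ← Finset.sum_subset Finset.subset_union_right]
      intro x _ hx₂
      simpa only [Multiset.mem_toFinset, Multiset.count_eq_zero] using hx₂

/-- The weight `∏_{s ∈ S} (j - s - 1/2)`. -/
noncomputable def wt (S : Finset ℕ) (j : ℕ) : ℝ := ∏ s ∈ S, ((j : ℝ) - ((s : ℝ) + 1 / 2))

theorem half_ne (j s : ℕ) : (j : ℝ) ≠ (s : ℝ) + 1 / 2 := by
  intro h
  have h2 : (2 : ℝ) * j = 2 * s + 1 := by linarith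
  have h3 : 2 * j = 2 * s + 1 := by exact_mod_cast h2
  omega

theorem wt_ne_zero (S : Finset ℕ) (j : ℕ) : wt S j ≠ 0 := by
  unfold wt
  rw [Finset.prod_ne_zero_iff]
  intro s _
  exact sub_ne_zero.2 (half_ne j s)

theorem card_posR_le_card_add {p : ℝ[X]} (hp : p ≠ 0) (S : Finset ℕ) :
    Multiset.card (posR p) ≤ Multiset.card (posR (opD (wt S) p)) + S.card := by
  classical
  induction S using Finset.induction_on with
  | empty =>
    have : wt ∅ = fun _ => (1 : ℝ) := by
      funext j; simp [wt]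
    rw [this, opD_one]; simp
  | insert s S hs ih =>
    have h1 : opD (wt (insert s S)) p = opD (fun j => (j : ℝ) - ((s : ℝ) + 1 / 2)) (opD (wt S) p) := by
      rw [opD_opD]
      congr 1
      funext j
      simp only [wt]
      rw [Finset.prod_insert hs]
    have h2 := card_posR_le_succ (c := (s : ℝ) + 1 / 2) (p := opD (wt S) p)
      (fun j => half_ne j s) (opD_ne_zero (wt_ne_zero S) hp)
    rw [h1, Finset.card_insert_of_notMem hs]
    omega

theorem card_posR_eq_zero {p : ℝ[X]} (h : ∀ x : ℝ, 0 < x → p.eval x ≠ 0) :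
    Multiset.card (posR p) = 0 := by
  have hp : p ≠ 0 := by
    rintro rfl
    exact h 1 one_pos (by simp)
  rw [Multiset.card_eq_zero, Multiset.eq_zero_iff_forall_notMem]
  intro x hx
  rw [mem_posR hp] at hx
  exact h x hx.2 hx.1

theorem card_le_posR {q : ℝ[X]} (hq : q ≠ 0) (S : Finset ℕ) (r : ℕ → ℝ)
    (hinj : Set.InjOn r S) (hpos : ∀ s ∈ S, 0 < r s) (hroot : ∀ s ∈ S, q.eval (r s) = 0) :
    S.card ≤ Multiset.card (posR q) := by
  classical
  calc S.card = (S.image r).card := (Finset.card_image_of_injOn hinj).symm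
    _ ≤ (posR q).toFinset.card := by
      apply Finset.card_le_card
      intro x hx
      obtain ⟨s, hs, rfl⟩ := Finset.mem_image.1 hx
      rw [Multiset.mem_toFinset, mem_posR hq]
      exact ⟨hroot s hs, hpos s hs⟩
    _ ≤ Multiset.card (posR q) := Multiset.toFinset_card_le _

end Pool.Agent.Work.MP_2780b6_an
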