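import Mathlib
import Pool.Agent.Work.MP_2780b6_an.Roots

set_option autoImplicit false

open Finset

namespace Pool.Agent.Work.MP_2780b6_an

theorem prod_aux (M : Finset ℕ) (K : ℕ) :
    (∏ t ∈ M.filter (fun t => t < K), ((t : ℝ) + 3 / 2) ^ 2) * ((K : ℝ) + 3 / 2) ≤
      3 * ((K : ℝ) + 1 / 2) *
        ∏ t ∈ M.filter (fun t => t < K), (((t : ℝ) + 1 / 2) * ((t : ℝ) + 5 / 2)) := by
  induction K with
  | zero => norm_num
  | succ K ih =>
    set P := ∏ t ∈ M.filter (fun t => t < K), ((t : ℝ) + 3 / 2) ^ 2 with hP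
    set Q := ∏ t ∈ M.filter (fun t => t < K), (((t : ℝ) + 1 / 2) * ((t : ℝ) + 5 / 2)) with hQ
    have hQ0 : 0 ≤ Q := Finset.prod_nonneg (fun t _ => by positivity)
    have hP0 : 0 ≤ P := Finset.prod_nonneg (fun t _ => by positivity)
    have hK : (0 : ℝ) ≤ K := Nat.cast_nonneg K
    by_cases hM : K ∈ M
    · have hfil : M.filter (fun t => t < K + 1) = insert K (M.filter (fun t => t < K)) := by
        ext t
        simp only [Finset.mem_filter, Finset.mem_insert]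
        constructor
        · rintro ⟨h1, h2⟩
          rcases Nat.lt_succ_iff_lt_or_eq.1 h2 with h3 | h3
          · exact Or.inr ⟨h1, h3⟩
          · exact Or.inl h3
        · rintro (h | h)
          · exact ⟨h ▸ hM, by omega⟩
          · exact ⟨h.1, by omega⟩
      rw [hfil, Finset.prod_insert (by simp), Finset.prod_insert (by simp), ← hP, ← hQ]
      push_cast
      have h5 : 0 ≤ ((K : ℝ) + 3 / 2) * ((K : ℝ) + 5 / 2) := by positivity
      nlinarith [mul_le_mul_of_nonneg_right ih h5]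
    · have hfil : M.filter (fun t => t < K + 1) = M.filter (fun t => t < K) := by
        ext t
        simp only [Finset.mem_filter]
        constructor
        · rintro ⟨h1, h2⟩
          refine ⟨h1, ?_⟩
          rcases Nat.lt_succ_iff_lt_or_eq.1 h2 with h3 | h3
          · exact h3
          · exact absurd (h3 ▸ h1) hM
        · rintro ⟨h1, h2⟩
          exact ⟨h1, by omega⟩
      rw [hfil, ← hP, ← hQ]
      push_cast
      -- P (K + 5/2) ≤ 3 Q (K + 3/2)
      have h1 : P * ((K : ℝ) + 3 / 2) * ((K : ℝ) + 5 / 2) ≤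
          3 * ((K : ℝ) + 1 / 2) * Q * ((K : ℝ) + 5 / 2) :=
        mul_le_mul_of_nonneg_right ih (by positivity)
      have h2 : 3 * ((K : ℝ) + 1 / 2) * Q * ((K : ℝ) + 5 / 2) ≤
          3 * Q * ((K : ℝ) + 3 / 2) * ((K : ℝ) + 3 / 2) := by nlinarith
      have h3 : (P * ((K : ℝ) + 5 / 2)) * ((K : ℝ) + 3 / 2) ≤
          (3 * Q * ((K : ℝ) + 3 / 2)) * ((K : ℝ) + 3 / 2) := by nlinarith
      have h4 := le_of_mul_le_mul_right h3 (by positivity)
      nlinarith

theorem prod_le_three (M : Finset ℕ) :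
    ∏ t ∈ M, ((t : ℝ) + 3 / 2) ^ 2 ≤ 3 * ∏ t ∈ M, (((t : ℝ) + 1 / 2) * ((t : ℝ) + 5 / 2)) := by
  obtain ⟨K, hK⟩ : ∃ K, ∀ t ∈ M, t < K := ⟨M.sup id + 1, fun t ht => Nat.lt_succ_of_le
    (Finset.le_sup (f := id) ht)⟩
  have hfil : M.filter (fun t => t < K) = M := Finset.filter_true_of_mem hK
  have h := prod_aux M K
  rw [hfil] at h
  set P := ∏ t ∈ M, ((t : ℝ) + 3 / 2) ^ 2 with hP
  set Q := ∏ t ∈ M, (((t : ℝ) + 1 / 2) * ((t : ℝ) + 5 / 2)) with hQ
  have hQ0 : 0 ≤ Q := Finset.prod_nonneg (fun t _ => by positivity)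
  have hK0 : (0 : ℝ) ≤ K := Nat.cast_nonneg K
  have h3 : P * ((K : ℝ) + 3 / 2) ≤ (3 * Q) * ((K : ℝ) + 3 / 2) := by nlinarith
  exact le_of_mul_le_mul_right h3 (by positivity)

theorem wt_sq_le (S : Finset ℕ) (m : ℕ) :
    |wt S (m + 1)| ^ 2 ≤ 9 * (|wt S m| * |wt S (m + 2)|) := by
  have hsplit : ∀ f : ℕ → ℝ, ∏ s ∈ S, f s =
      (∏ s ∈ S.filter (fun s => s < m), f s) *
        ((∏ s ∈ (S.filter (fun s => ¬ s < m)).filter (fun s => s < m + 2), f s) *
        (∏ s ∈ (S.filter (fun s => ¬ s < m)).filter (fun s => ¬ s < m + 2), f s)) := by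
    intro f
    rw [Finset.prod_filter_mul_prod_filter_not, Finset.prod_filter_mul_prod_filter_not]
  have e1 : |wt S (m + 1)| ^ 2 = ∏ s ∈ S, ((((m + 1 : ℕ) : ℝ) - ((s : ℝ) + 1 / 2)) ^ 2) := by
    rw [sq_abs, wt, Finset.prod_pow]
  have e2 : |wt S m| * |wt S (m + 2)| =
      ∏ s ∈ S, |(((m : ℕ) : ℝ) - ((s : ℝ) + 1 / 2))| * |(((m + 2 : ℕ) : ℝ) - ((s : ℝ) + 1 / 2))| := by
    rw [wt, wt, Finset.abs_prod, Finset.abs_prod, Finset.prod_mul_distrib]
  rw [e1, e2, hsplit, hsplit]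
  -- left part
  have hL : ∏ s ∈ S.filter (fun s => s < m), ((((m + 1 : ℕ) : ℝ) - ((s : ℝ) + 1 / 2)) ^ 2) ≤
      3 * ∏ s ∈ S.filter (fun s => s < m),
        |(((m : ℕ) : ℝ) - ((s : ℝ) + 1 / 2))| * |(((m + 2 : ℕ) : ℝ) - ((s : ℝ) + 1 / 2))| := by
    have hinj : Set.InjOn (fun s : ℕ => m - 1 - s) (S.filter (fun s => s < m)) := by
      intro a ha b hb hab
      simp only [Finset.coe_filter, Set.mem_ofPred_eq] at ha hb
      simp only at hab
      omega
    have h := prod_le_three ((S.filter (fun s => s < m)).image (fun s : ℕ => m - 1 - s))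
    rw [Finset.prod_image hinj, Finset.prod_image hinj] at h
    refine le_trans (le_of_eq ?_) (le_trans h (le_of_eq ?_))
    · apply Finset.prod_congr rfl
      intro s hs
      have hs' : s < m := (Finset.mem_filter.1 hs).2
      have : ((m - 1 - s : ℕ) : ℝ) = (m : ℝ) - 1 - s := by
        rw [Nat.cast_sub (by omega), Nat.cast_sub (by omega)]; simp
      rw [this]; push_cast; ring
    · congr 1
      apply Finset.prod_congr rfl
      intro s hs
      have hs' : s < m := (Finset.mem_filter.1 hs).2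
      have : ((m - 1 - s : ℕ) : ℝ) = (m : ℝ) - 1 - s := by
        rw [Nat.cast_sub (by omega), Nat.cast_sub (by omega)]; simp
      have h1 : (s : ℝ) + 1 ≤ m := by exact_mod_cast hs'
      rw [this, abs_of_nonneg (by linarith), abs_of_nonneg (by push_cast; linarith)]
      push_cast; ring
  have hR : ∏ s ∈ (S.filter (fun s => ¬ s < m)).filter (fun s => ¬ s < m + 2),
        ((((m + 1 : ℕ) : ℝ) - ((s : ℝ) + 1 / 2)) ^ 2) ≤
      3 * ∏ s ∈ (S.filter (fun s => ¬ s < m)).filter (fun s => ¬ s < m + 2),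
        |(((m : ℕ) : ℝ) - ((s : ℝ) + 1 / 2))| * |(((m + 2 : ℕ) : ℝ) - ((s : ℝ) + 1 / 2))| := by
    have hinj : Set.InjOn (fun s : ℕ => s - (m + 2))
        ((S.filter (fun s => ¬ s < m)).filter (fun s => ¬ s < m + 2)) := by
      intro a ha b hb hab
      simp only [Finset.coe_filter, Set.mem_ofPred_eq, Finset.mem_filter] at ha hb
      simp only at hab
      omega
    have h := prod_le_three (((S.filter (fun s => ¬ s < m)).filter (fun s => ¬ s < m + 2)).image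
      (fun s : ℕ => s - (m + 2)))
    rw [Finset.prod_image hinj, Finset.prod_image hinj] at h
    refine le_trans (le_of_eq ?_) (le_trans h (le_of_eq ?_))
    · apply Finset.prod_congr rfl
      intro s hs
      have hs' : ¬ s < m + 2 := (Finset.mem_filter.1 hs).2
      have : ((s - (m + 2) : ℕ) : ℝ) = (s : ℝ) - (m + 2) := by
        rw [Nat.cast_sub (by omega)]; push_cast; ring
      rw [this]; push_cast; ring
    · congr 1
      apply Finset.prod_congr rfl
      intro s hs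
      have hs' : ¬ s < m + 2 := (Finset.mem_filter.1 hs).2
      have : ((s - (m + 2) : ℕ) : ℝ) = (s : ℝ) - (m + 2) := by
        rw [Nat.cast_sub (by omega)]; push_cast; ring
      have h1 : (m : ℝ) + 2 ≤ s := by
        have : m + 2 ≤ s := by omega
        exact_mod_cast this
      rw [this, abs_of_nonpos (by linarith), abs_of_nonpos (by push_cast; linarith)]
      push_cast; ring
  have hM : ∏ s ∈ (S.filter (fun s => ¬ s < m)).filter (fun s => s < m + 2),
        ((((m + 1 : ℕ) : ℝ) - ((s : ℝ) + 1 / 2)) ^ 2) ≤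
      ∏ s ∈ (S.filter (fun s => ¬ s < m)).filter (fun s => s < m + 2),
        |(((m : ℕ) : ℝ) - ((s : ℝ) + 1 / 2))| * |(((m + 2 : ℕ) : ℝ) - ((s : ℝ) + 1 / 2))| := by
    apply Finset.prod_le_prod
    · intro s _; positivity
    · intro s hs
      simp only [Finset.mem_filter] at hs
      have : s = m ∨ s = m + 1 := by omega
      rcases this with rfl | rfl
      · rw [abs_of_nonpos (by linarith), abs_of_nonneg (by push_cast; linarith)]
        push_cast; nlinarith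
      · rw [abs_of_nonpos (by push_cast; linarith), abs_of_nonneg (by push_cast; linarith)]
        push_cast; nlinarith
  set L1 := ∏ s ∈ S.filter (fun s => s < m), ((((m + 1 : ℕ) : ℝ) - ((s : ℝ) + 1 / 2)) ^ 2)
  set R1 := ∏ s ∈ (S.filter (fun s => ¬ s < m)).filter (fun s => ¬ s < m + 2),
        ((((m + 1 : ℕ) : ℝ) - ((s : ℝ) + 1 / 2)) ^ 2)
  set M1 := ∏ s ∈ (S.filter (fun s => ¬ s < m)).filter (fun s => s < m + 2),
        ((((m + 1 : ℕ) : ℝ) - ((s : ℝ) + 1 / 2)) ^ 2)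
  set L2 := ∏ s ∈ S.filter (fun s => s < m),
        |(((m : ℕ) : ℝ) - ((s : ℝ) + 1 / 2))| * |(((m + 2 : ℕ) : ℝ) - ((s : ℝ) + 1 / 2))|
  set R2 := ∏ s ∈ (S.filter (fun s => ¬ s < m)).filter (fun s => ¬ s < m + 2),
        |(((m : ℕ) : ℝ) - ((s : ℝ) + 1 / 2))| * |(((m + 2 : ℕ) : ℝ) - ((s : ℝ) + 1 / 2))|
  set M2 := ∏ s ∈ (S.filter (fun s => ¬ s < m)).filter (fun s => s < m + 2),
        |(((m : ℕ) : ℝ) - ((s : ℝ) + 1 / 2))| * |(((m + 2 : ℕ) : ℝ) - ((s : ℝ) + 1 / 2))|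
  have hL1 : 0 ≤ L1 := Finset.prod_nonneg (fun s _ => by positivity)
  have hR1 : 0 ≤ R1 := Finset.prod_nonneg (fun s _ => by positivity)
  have hM1 : 0 ≤ M1 := Finset.prod_nonneg (fun s _ => by positivity)
  have hL2 : 0 ≤ L2 := Finset.prod_nonneg (fun s _ => by positivity)
  have hR2 : 0 ≤ R2 := Finset.prod_nonneg (fun s _ => by positivity)
  have hM2 : 0 ≤ M2 := Finset.prod_nonneg (fun s _ => by positivity)
  have hMR : M1 * R1 ≤ M2 * (3 * R2) := mul_le_mul hM hR hR1 hM2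
  calc L1 * (M1 * R1) ≤ (3 * L2) * (M2 * (3 * R2)) :=
        mul_le_mul hL hMR (by positivity) (by positivity)
    _ = 9 * (L2 * (M2 * R2)) := by ring

/-- The final weights `|∏ (j - s - 1/2)| / (γ_j 3^{j^2})`. -/
noncomputable def Hw (S : Finset ℕ) (γ : ℕ → ℝ) (j : ℕ) : ℝ := |wt S j| / (γ j * 3 ^ (j ^ 2))

theorem Hw_pos (S : Finset ℕ) {γ : ℕ → ℝ} (hγ : ∀ k, 0 < γ k) (j : ℕ) : 0 < Hw S γ j := by
  unfold Hw
  have := hγ j
  have h2 : 0 < |wt S j| := abs_pos.2 (wt_ne_zero S j)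
  positivity

theorem Hw_sq_le (S : Finset ℕ) {γ : ℕ → ℝ} (hγ : ∀ k, 0 < γ k)
    (h : ∀ k, 400 * (γ k * γ (k + 2)) ≤ γ (k + 1) ^ 2) (m : ℕ) :
    Hw S γ (m + 1) ^ 2 ≤ 81 / 400 * (Hw S γ m * Hw S γ (m + 2)) := by
  unfold Hw
  have h0 := hγ m
  have h1 := hγ (m + 1)
  have h2 := hγ (m + 2)
  have hw := wt_sq_le S m
  have hg := h m
  set A := |wt S m|
  set B := |wt S (m + 1)|
  set D := |wt S (m + 2)|
  have hA : 0 ≤ A := abs_nonneg _
  have hD : 0 ≤ D := abs_nonneg _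
  have hpow : (3 : ℝ) ^ (m ^ 2) * 3 ^ ((m + 2) ^ 2) = 9 * (3 ^ ((m + 1) ^ 2)) ^ 2 := by
    rw [← pow_add, ← pow_mul, show (9 : ℝ) = 3 ^ 2 by norm_num, ← pow_add]
    congr 1; ring
  have e1 : (B / (γ (m + 1) * 3 ^ ((m + 1) ^ 2))) ^ 2 =
      B ^ 2 / (γ (m + 1) ^ 2 * (3 ^ ((m + 1) ^ 2)) ^ 2) := by
    rw [div_pow, mul_pow]
  have e2 : A / (γ m * 3 ^ (m ^ 2)) * (D / (γ (m + 2) * 3 ^ ((m + 2) ^ 2))) =
      A * D / ((γ m * γ (m + 2)) * (9 * (3 ^ ((m + 1) ^ 2)) ^ 2)) := by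
    rw [div_mul_div_comm, ← hpow]; congr 1; ring
  rw [e1, e2]
  set T := ((3 : ℝ) ^ ((m + 1) ^ 2)) ^ 2 with hT
  have hT0 : 0 < T := by positivity
  have hgm : 0 < γ m * γ (m + 2) := by positivity
  calc B ^ 2 / (γ (m + 1) ^ 2 * T) ≤ (9 * (A * D)) / ((400 * (γ m * γ (m + 2))) * T) := by
        apply div_le_div₀ (by positivity) hw (by positivity)
        exact mul_le_mul_of_nonneg_right hg hT0.le
    _ = 81 / 400 * (A * D / ((γ m * γ (m + 2)) * (9 * T))) := by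
        field_simp
        ring

end Pool.Agent.Work.MP_2780b6_an
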