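import Mathlib
import Pool.Agent.Work.MP_2780b6_an.Roots
import Pool.Agent.Work.MP_2780b6_an.Hull
import Pool.Agent.Work.MP_2780b6_an.Weights

set_option autoImplicit false

open Polynomial Finset

namespace Pool.Agent.Work.MP_2780b6_an

theorem Mx.mono {W : ℕ → ℝ} {x y : ℝ} (hx : 0 < x) (hxy : x < y) {i k : ℕ}
    (hi : Mx W x i) (hk : Mx W y k) : i ≤ k := by
  by_contra hlt
  push Not at hlt
  obtain ⟨e, rfl⟩ : ∃ e, i = k + (e + 1) := ⟨i - k - 1, by omega⟩
  have hy : 0 < y := lt_trans hx hxy
  have h1 := hi.2 k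
  have h2 := hk.2 (k + (e + 1))
  rw [pow_add] at h1 h2
  have h3 : W k ≤ W (k + (e + 1)) * x ^ (e + 1) := by
    have : 0 < x ^ k := pow_pos hx _
    nlinarith
  have h4 : W (k + (e + 1)) * y ^ (e + 1) ≤ W k := by
    have : 0 < y ^ k := pow_pos hy _
    nlinarith
  have h5 : y ^ (e + 1) ≤ x ^ (e + 1) := le_of_mul_le_mul_left (h4.trans h3) hi.1
  have h6 : x ^ (e + 1) < y ^ (e + 1) := pow_lt_pow_left₀ hxy hx.le (by omega)
  linarith

/-- geometric sums around `g` -/
theorem geom_left (g : ℕ) : ∑ j ∈ Finset.range g, ((1 : ℝ) / 3) ^ (g - j) = (1 - (1 / 3) ^ g) / 2 := by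
  induction g with
  | zero => simp
  | succ g ih =>
    rw [Finset.sum_range_succ]
    have : ∑ j ∈ Finset.range g, ((1 : ℝ) / 3) ^ (g + 1 - j) =
        (1 / 3) * ∑ j ∈ Finset.range g, ((1 : ℝ) / 3) ^ (g - j) := by
      rw [Finset.mul_sum]
      apply Finset.sum_congr rfl
      intro j hj
      have : j < g := Finset.mem_range.1 hj
      rw [show g + 1 - j = (g - j) + 1 by omega, pow_succ]; ring
    rw [this, ih]
    rw [show g + 1 - g = 1 by omega]
    ring

theorem geom_right (m : ℕ) : ∑ i ∈ Finset.range m, ((1 : ℝ) / 3) ^ (i + 1) = (1 - (1 / 3) ^ m) / 2 := by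
  induction m with
  | zero => simp
  | succ m ih => rw [Finset.sum_range_succ, ih]; ring

theorem geom_sum_lt (g N : ℕ) :
    ∑ j ∈ (Finset.range (N + 1)).erase g, ((1 : ℝ) / 3) ^ ((j - g) + (g - j)) < 1 := by
  classical
  have hsub : (Finset.range (N + 1)).erase g ⊆
      Finset.range g ∪ (Finset.range N).image (fun i => g + 1 + i) := by
    intro j hj
    rw [Finset.mem_erase, Finset.mem_range] at hj
    rw [Finset.mem_union, Finset.mem_range, Finset.mem_image]
    rcases lt_or_gt_of_ne hj.1 with h | h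
    · exact Or.inl h
    · exact Or.inr ⟨j - g - 1, Finset.mem_range.2 (by omega), by omega⟩
  calc ∑ j ∈ (Finset.range (N + 1)).erase g, ((1 : ℝ) / 3) ^ ((j - g) + (g - j))
      ≤ ∑ j ∈ Finset.range g ∪ (Finset.range N).image (fun i => g + 1 + i),
          ((1 : ℝ) / 3) ^ ((j - g) + (g - j)) :=
        Finset.sum_le_sum_of_subset_of_nonneg hsub (fun _ _ _ => by positivity)
    _ ≤ (∑ j ∈ Finset.range g, ((1 : ℝ) / 3) ^ ((j - g) + (g - j))) +
          ∑ j ∈ (Finset.range N).image (fun i => g + 1 + i), ((1 : ℝ) / 3) ^ ((j - g) + (g - j)) := by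
        rw [← Finset.sum_union_inter]
        have : 0 ≤ ∑ j ∈ Finset.range g ∩ (Finset.range N).image (fun i => g + 1 + i),
          ((1 : ℝ) / 3) ^ ((j - g) + (g - j)) := Finset.sum_nonneg (fun _ _ => by positivity)
        linarith
    _ = (1 - (1 / 3) ^ g) / 2 + (1 - (1 / 3) ^ N) / 2 := by
        rw [Finset.sum_image (fun a _ b _ h => by simpa using h), ← geom_left, ← geom_right]
        congr 1
        · apply Finset.sum_congr rfl
          intro j hj
          have : j < g := Finset.mem_range.1 hj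
          congr 1; omega
        · apply Finset.sum_congr rfl
          intro i _
          congr 1; omega
    _ < 1 := by
        have h1 : (0 : ℝ) < (1 / 3) ^ g := by positivity
        have h2 : (0 : ℝ) < (1 / 3) ^ N := by positivity
        linarith

theorem wt_succ_mul_pos {S : Finset ℕ} {j : ℕ} (hj : j ∉ S) : 0 < wt S (j + 1) * wt S j := by
  unfold wt
  rw [← Finset.prod_mul_distrib]
  apply Finset.prod_pos
  intro s hs
  have hne : s ≠ j := fun h => hj (h ▸ hs)
  rcases lt_or_gt_of_ne hne with h | h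
  · have : (s : ℝ) + 1 ≤ j := by exact_mod_cast h
    apply mul_pos <;> push_cast <;> linarith
  · have : (j : ℝ) + 1 ≤ s := by exact_mod_cast h
    apply mul_pos_of_neg_of_neg <;> push_cast <;> linarith

theorem wt_succ_mul_neg {S : Finset ℕ} {j : ℕ} (hj : j ∈ S) : wt S (j + 1) * wt S j < 0 := by
  classical
  have h1 := wt_succ_mul_pos (S := S.erase j) (j := j) (Finset.notMem_erase j S)
  have e : ∀ i, wt S i = ((i : ℝ) - ((j : ℝ) + 1 / 2)) * wt (S.erase j) i := by
    intro i
    unfold wt
    rw [Finset.mul_prod_erase S (fun s => ((i : ℝ) - ((s : ℝ) + 1 / 2))) hj]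
  rw [e, e]
  push_cast
  nlinarith

/-- The summation lemma: off the good indices the weighted coefficients are small. -/
theorem sum_bad_lt_sum_good {W : ℕ → ℝ} {N : ℕ} (h : Adm W N) {H : ℕ → ℝ} (hH : ∀ j, 0 < H j)
    (hHsq : ∀ m, H (m + 1) ^ 2 ≤ 81 / 400 * (H m * H (m + 2))) [DecidablePred (Good W)]
    {x : ℝ} (hx : 0 < x) :
    ∑ j ∈ (Finset.range (N + 1)).filter (fun j => ¬ Good W j), W j * H j * x ^ j <
      ∑ j ∈ (Finset.range (N + 1)).filter (fun j => Good W j), W j * H j * x ^ j := by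
  classical
  obtain ⟨V, hWV, hVG, hVpos, hVsq⟩ := exists_hull h
  set E : ℕ → ℝ := fun j => V j * H j * x ^ j with hE
  set I := (Finset.range (N + 1)).filter (fun j => InR W j) with hI
  have hGN : ∀ g, Good W g → g ≤ N := by
    intro g hg
    by_contra hlt
    push Not at hlt
    obtain ⟨y, hy, hm⟩ := hg
    have := hm.1
    rw [h.supp g hlt] at this
    exact lt_irrefl _ this
  have hGR : ∀ g, Good W g → InR W g := fun g hg => ⟨⟨g, le_rfl, hg⟩, ⟨g, le_rfl, hg⟩⟩
  have hEpos : ∀ j, InR W j → 0 < E j := fun j hj =>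
    mul_pos (mul_pos (hVpos j hj) (hH j)) (pow_pos hx _)
  -- key convexity inequality
  have hkey : ∀ m, InR W (m + 1) → ¬ Good W (m + 1) → InR W m ∧ InR W (m + 2) ∧ m + 2 ≤ N ∧
      E (m + 1) ≤ 9 / 40 * (E m + E (m + 2)) := by
    intro m hm hng
    obtain ⟨⟨g1, hg1, hG1⟩, ⟨g2, hg2, hG2⟩⟩ := hm
    have n1 : g1 ≠ m + 1 := fun e => hng (e ▸ hG1)
    have n2 : g2 ≠ m + 1 := fun e => hng (e ▸ hG2)
    have r0 : InR W m := ⟨⟨g1, by omega, hG1⟩, ⟨g2, by omega, hG2⟩⟩
    have r2 : InR W (m + 2) := ⟨⟨g1, by omega, hG1⟩, ⟨g2, by omega, hG2⟩⟩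
    refine ⟨r0, r2, ?_, ?_⟩
    · have := hGN g2 hG2; omega
    have hV := hVsq m ⟨⟨g1, hg1, hG1⟩, ⟨g2, hg2, hG2⟩⟩ hng
    have hh := hHsq m
    have e0 := hEpos m r0
    have e2 := hEpos (m + 2) r2
    have hsq : E (m + 1) ^ 2 ≤ 81 / 400 * (E m * E (m + 2)) := by
      have hp : 0 ≤ V m * V (m + 2) := (mul_pos (hVpos m r0) (hVpos (m + 2) r2)).le
      calc E (m + 1) ^ 2 = (V (m + 1) ^ 2 * H (m + 1) ^ 2) * (x ^ (m + 1)) ^ 2 := by
            simp only [hE]; ring
        _ ≤ ((V m * V (m + 2)) * (81 / 400 * (H m * H (m + 2)))) * (x ^ (m + 1)) ^ 2 := by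
            apply mul_le_mul_of_nonneg_right _ (by positivity)
            exact mul_le_mul hV hh (by positivity) hp
        _ = 81 / 400 * (E m * E (m + 2)) := by
            simp only [hE]; ring
    by_contra hlt
    push Not at hlt
    nlinarith [sq_nonneg (E m - E (m + 2))]
  have hGood : (Finset.range (N + 1)).filter (fun j => Good W j) = I.filter (fun j => Good W j) := by
    ext j
    simp only [hI, Finset.mem_filter]
    constructor
    · rintro ⟨h1, h2⟩; exact ⟨⟨h1, hGR j h2⟩, h2⟩
    · rintro ⟨⟨h1, _⟩, h2⟩; exact ⟨h1, h2⟩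
  set B := I.filter (fun j => ¬ Good W j) with hB
  set G := I.filter (fun j => Good W j) with hG
  have hBad : ∑ j ∈ (Finset.range (N + 1)).filter (fun j => ¬ Good W j), W j * H j * x ^ j ≤
      ∑ j ∈ B, E j := by
    have hsub : B ⊆ (Finset.range (N + 1)).filter (fun j => ¬ Good W j) := by
      intro j hj
      simp only [hB, hI, Finset.mem_filter] at hj ⊢
      exact ⟨hj.1.1, hj.2⟩
    rw [← Finset.sum_subset hsub]
    · apply Finset.sum_le_sum
      intro j _
      apply mul_le_mul_of_nonneg_right _ (pow_nonneg hx.le _)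
      exact mul_le_mul_of_nonneg_right (hWV j) (hH j).le
    · intro j hj hjB
      simp only [hB, hI, Finset.mem_filter] at hj hjB
      have hnr : ¬ InR W j := fun hr => hjB ⟨⟨hj.1, hr⟩, hj.2⟩
      have hw : W j = 0 := by
        by_contra hne
        exact hnr (inR_of_pos h (lt_of_le_of_ne (h.nonneg j) (Ne.symm hne)))
      rw [hw]; ring
  have hGsum : ∑ j ∈ (Finset.range (N + 1)).filter (fun j => Good W j), W j * H j * x ^ j =
      ∑ j ∈ G, E j := by
    rw [hGood]
    apply Finset.sum_congr rfl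
    intro j hj
    have : Good W j := (Finset.mem_filter.1 hj).2
    simp only [hE, hVG j this]
  set T := ∑ j ∈ B, E j with hT
  set U := ∑ j ∈ G, E j with hU
  have hIsum : ∑ j ∈ I, E j = T + U := by
    rw [hT, hU, hB, hG, add_comm]
    exact (Finset.sum_filter_add_sum_filter_not I (fun j => Good W j) E).symm
  have hB1 : ∀ j ∈ B, ∃ m, j = m + 1 ∧ InR W m ∧ InR W (m + 2) ∧ m + 2 ≤ N ∧
      E (m + 1) ≤ 9 / 40 * (E m + E (m + 2)) := by
    intro j hj
    simp only [hB, hI, Finset.mem_filter] at hj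
    obtain ⟨⟨_, hr⟩, hng⟩ := hj
    obtain ⟨⟨g1, hg1, hG1⟩, _⟩ := id hr
    have n1 : g1 ≠ j := fun e => hng (e ▸ hG1)
    obtain ⟨m, rfl⟩ : ∃ m, j = m + 1 := ⟨j - 1, by omega⟩
    exact ⟨m, rfl, hkey m hr hng⟩
  have hleft : ∑ j ∈ B, E (j - 1) ≤ T + U := by
    rw [← hIsum]
    have hinj : Set.InjOn (fun j : ℕ => j - 1) B := by
      intro a ha b hb hab
      obtain ⟨m, hm, _⟩ := hB1 a ha
      obtain ⟨m', hm', _⟩ := hB1 b hb
      simp only at hab
      omega
    rw [← Finset.sum_image (f := E) (g := fun j : ℕ => j - 1) hinj]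
    apply Finset.sum_le_sum_of_subset_of_nonneg
    · intro k hk
      obtain ⟨j, hj, rfl⟩ := Finset.mem_image.1 hk
      obtain ⟨m, rfl, h0, _, h3, _⟩ := hB1 j hj
      simp only [hI, Finset.mem_filter, Finset.mem_range]
      exact ⟨by omega, by simpa using h0⟩
    · intro k hk _
      exact (hEpos k (Finset.mem_filter.1 hk).2).le
  have hright : ∑ j ∈ B, E (j + 1) ≤ T + U := by
    rw [← hIsum]
    have hinj : Set.InjOn (fun j : ℕ => j + 1) B := by
      intro a _ b _ hab
      simpa using hab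
    rw [← Finset.sum_image (f := E) (g := fun j : ℕ => j + 1) hinj]
    apply Finset.sum_le_sum_of_subset_of_nonneg
    · intro k hk
      obtain ⟨j, hj, rfl⟩ := Finset.mem_image.1 hk
      obtain ⟨m, rfl, _, h2, h3, _⟩ := hB1 j hj
      simp only [hI, Finset.mem_filter, Finset.mem_range]
      exact ⟨by omega, h2⟩
    · intro k hk _
      exact (hEpos k (Finset.mem_filter.1 hk).2).le
  have hTle : T ≤ 9 / 40 * (∑ j ∈ B, E (j - 1) + ∑ j ∈ B, E (j + 1)) := by
    rw [← Finset.sum_add_distrib, Finset.mul_sum, hT]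
    apply Finset.sum_le_sum
    intro j hj
    obtain ⟨m, rfl, _, _, _, h4⟩ := hB1 j hj
    simpa using h4
  have hUpos : 0 < U := by
    obtain ⟨k, hk⟩ := exists_Mx h (one_pos)
    have hgk : Good W k := hk.good one_pos
    apply Finset.sum_pos
    · intro j hj
      exact hEpos j (Finset.mem_filter.1 (Finset.mem_filter.1 hj).1).2
    · refine ⟨k, ?_⟩
      simp only [hG, hI, Finset.mem_filter, Finset.mem_range]
      exact ⟨⟨by have := hGN k hgk; omega, hGR k hgk⟩, hgk⟩
  rw [hGsum]
  linarith

/-- Main counting theorem on the positive half line. -/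
theorem card_posR_le {γ : ℕ → ℝ} (hγ : ∀ k, 0 < γ k)
    (hr : ∀ k, 400 * (γ k * γ (k + 2)) ≤ γ (k + 1) ^ 2) {p : ℝ[X]} (hp : p ≠ 0) :
    Multiset.card (posR p) ≤ Multiset.card (posR (opD γ p)) := by
  classical
  set N := p.natDegree with hN
  set a : ℕ → ℝ := fun j => p.coeff j with ha
  set W : ℕ → ℝ := fun j => |a j| * γ j * 3 ^ (j ^ 2) with hW
  have hAdm : Adm W N := by
    refine ⟨fun j => ?_, fun j hj => ?_, ?_⟩
    · have := hγ j; simp only [hW]; positivity
    · have : a j = 0 := coeff_eq_zero_of_natDegree_lt hj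
      simp only [hW, this, abs_zero, zero_mul]
    · refine ⟨N, ?_⟩
      have h1 : a N ≠ 0 := by simpa [ha, hN] using leadingCoeff_ne_zero.2 hp
      have h2 := hγ N
      have h3 : 0 < |a N| := abs_pos.2 h1
      simp only [hW]; positivity
  have hane : ∀ g, Good W g → a g ≠ 0 := by
    rintro g ⟨x, hx, hm⟩ h0
    have := hm.1
    simp only [hW, h0, abs_zero, zero_mul] at this
    exact lt_irrefl _ this
  have hGN : ∀ g, Good W g → g ≤ N := by
    intro g hg
    by_contra hlt
    push Not at hlt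
    exact hane g hg (coeff_eq_zero_of_natDegree_lt hlt)
  choose! xf hxf using (fun (g : ℕ) (hg : Good W g) => hg)
  -- evaluation points
  set y : ℕ → ℝ := fun g => xf g * 9 ^ g with hy
  have hypos : ∀ g, Good W g → 0 < y g := fun g hg => mul_pos (hxf g hg).1 (by positivity)
  have hymono : ∀ g g', Good W g → Good W g' → g < g' → y g < y g' := by
    intro g g' hg hg' hlt
    have h1 : xf g ≤ xf g' := by
      by_contra hc
      push Not at hc
      have := Mx.mono (hxf g' hg').1 hc (hxf g' hg').2 (hxf g hg).2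
      omega
    have h2 : (9 : ℝ) ^ g < 9 ^ g' := pow_lt_pow_right₀ (by norm_num) hlt
    simp only [hy]
    calc xf g * 9 ^ g ≤ xf g' * 9 ^ g := mul_le_mul_of_nonneg_right h1 (by positivity)
      _ < xf g' * 9 ^ g' := mul_lt_mul_of_pos_left h2 (hxf g' hg').1
  set q := opD γ p with hq
  have hq0 : q ≠ 0 := opD_ne_zero (fun j => (hγ j).ne') hp
  have hqdeg : q.natDegree ≤ N := by
    rw [natDegree_le_iff_coeff_eq_zero]
    intro j hj
    rw [hq, coeff_opD, coeff_eq_zero_of_natDegree_lt hj, mul_zero]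
  have hqeval : ∀ t : ℝ, q.eval t = ∑ j ∈ Finset.range (N + 1), γ j * a j * t ^ j := by
    intro t
    rw [eval_eq_sum_range' (Nat.lt_succ_of_le hqdeg)]
    apply Finset.sum_congr rfl
    intro j _
    rw [hq, coeff_opD]
  -- sign at the evaluation points
  have hsign : ∀ g, Good W g → 0 < a g * q.eval (y g) := by
    intro g hg
    have hyg := hypos g hg
    obtain ⟨hx0, hm⟩ := hxf g hg
    have hdom : ∀ j, |γ j * a j * y g ^ j| ≤
        (1 / 3) ^ ((j - g) + (g - j)) * |γ g * a g * y g ^ g| := by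
      intro j
      have h1 := hm.2 j
      simp only [hW] at h1
      set d := (j - g) + (g - j) with hd
      have hd2 : j ^ 2 + g ^ 2 = 2 * g * j + d ^ 2 := by
        rcases le_total j g with h | h
        · obtain ⟨e, rfl⟩ : ∃ e, g = j + e := ⟨g - j, by omega⟩
          have : d = e := by rw [hd]; omega
          rw [this]; ring
        · obtain ⟨e, rfl⟩ : ∃ e, j = g + e := ⟨j - g, by omega⟩
          have : d = e := by rw [hd]; omega
          rw [this]; ring
      have e1 : |γ j * a j * y g ^ j| = |a j| * γ j * y g ^ j := by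
        rw [abs_mul, abs_mul, abs_of_pos (hγ j), abs_of_pos (pow_pos hyg _)]; ring
      have e2 : |γ g * a g * y g ^ g| = |a g| * γ g * y g ^ g := by
        rw [abs_mul, abs_mul, abs_of_pos (hγ g), abs_of_pos (pow_pos hyg _)]; ring
      rw [e1, e2]
      -- multiply by 9 ^ (g*j)
      have h2 : |a j| * γ j * y g ^ j * 3 ^ (d ^ 2) ≤ |a g| * γ g * y g ^ g := by
        have h3 : (3 : ℝ) ^ (j ^ 2) * 3 ^ (g ^ 2) = 9 ^ (g * j) * 3 ^ (d ^ 2) := by
          rw [← pow_add, hd2, pow_add, mul_assoc, pow_mul]; norm_num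
        have h4 : (3 : ℝ) ^ (g ^ 2) * 3 ^ (g ^ 2) = 9 ^ (g * g) := by
          rw [← pow_add, show (9 : ℝ) = 3 ^ 2 by norm_num, ← pow_mul]; congr 1; ring
        have h5 : y g ^ j = xf g ^ j * 9 ^ (g * j) := by
          simp only [hy]; rw [mul_pow, ← pow_mul]
        have h6 : y g ^ g = xf g ^ g * 9 ^ (g * g) := by
          simp only [hy]; rw [mul_pow, ← pow_mul]
        rw [h5, h6, ← h4]
        have h7 : |a j| * γ j * (xf g ^ j * 9 ^ (g * j)) * 3 ^ (d ^ 2) =
            (|a j| * γ j * 3 ^ (j ^ 2) * xf g ^ j) * 3 ^ (g ^ 2) := by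
          linear_combination (- (|a j| * γ j * xf g ^ j)) * h3
        have h8 : |a g| * γ g * (xf g ^ g * (3 ^ (g ^ 2) * 3 ^ (g ^ 2))) =
            (|a g| * γ g * 3 ^ (g ^ 2) * xf g ^ g) * 3 ^ (g ^ 2) := by ring
        rw [h7, h8]
        exact mul_le_mul_of_nonneg_right h1 (by positivity)
      have h9 : (3 : ℝ) ^ d ≤ 3 ^ (d ^ 2) := by
        apply pow_le_pow_right₀ (by norm_num)
        nlinarith [Nat.zero_le d, sq_nonneg d, Nat.le_self_pow (two_ne_zero) d]
      have h10 : 0 ≤ |a j| * γ j * y g ^ j := by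
        have := hγ j; positivity
      have h11 : |a j| * γ j * y g ^ j * 3 ^ d ≤ |a g| * γ g * y g ^ g :=
        (mul_le_mul_of_nonneg_left h9 h10).trans h2
      rw [one_div, inv_pow, inv_mul_eq_div, le_div_iff₀ (by positivity)]
      exact h11
    have hgmem : g ∈ Finset.range (N + 1) := Finset.mem_range.2 (Nat.lt_succ_of_le (hGN g hg))
    set M := |γ g * a g * y g ^ g| with hM
    have hMpos : 0 < M := by
      apply abs_pos.2
      have := hγ g
      exact mul_ne_zero (mul_ne_zero this.ne' (hane g hg)) (pow_pos hyg _).ne'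
    have hrest : |∑ j ∈ (Finset.range (N + 1)).erase g, γ j * a j * y g ^ j| < M := by
      calc |∑ j ∈ (Finset.range (N + 1)).erase g, γ j * a j * y g ^ j|
          ≤ ∑ j ∈ (Finset.range (N + 1)).erase g, |γ j * a j * y g ^ j| :=
            Finset.abs_sum_le_sum_abs _ _
        _ ≤ ∑ j ∈ (Finset.range (N + 1)).erase g, (1 / 3) ^ ((j - g) + (g - j)) * M :=
            Finset.sum_le_sum (fun j _ => hdom j)
        _ = (∑ j ∈ (Finset.range (N + 1)).erase g, ((1 : ℝ) / 3) ^ ((j - g) + (g - j))) * M := by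
            rw [Finset.sum_mul]
        _ < 1 * M := mul_lt_mul_of_pos_right (geom_sum_lt g N) hMpos
        _ = M := one_mul M
    rw [hqeval, ← Finset.add_sum_erase _ _ hgmem]
    set Rr := ∑ j ∈ (Finset.range (N + 1)).erase g, γ j * a j * y g ^ j with hRr
    have hc : 0 < γ g * y g ^ g := mul_pos (hγ g) (pow_pos hyg _)
    have hMe : M = |a g| * (γ g * y g ^ g) := by
      rw [hM, show γ g * a g * y g ^ g = a g * (γ g * y g ^ g) by ring, abs_mul, abs_of_pos hc]
    have h1 := abs_lt.1 hrest
    rcases lt_or_gt_of_ne (hane g hg) with hneg | hpos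
    · rw [abs_of_neg hneg] at hMe
      apply mul_pos_of_neg_of_neg hneg
      nlinarith [h1.2]
    · rw [abs_of_pos hpos] at hMe
      apply mul_pos hpos
      nlinarith [h1.1]
  -- previous good index
  obtain ⟨k0, hk0⟩ := exists_Mx hAdm one_pos
  have hG0 : ∃ g, Good W g := ⟨k0, hk0.good one_pos⟩
  have hpgex : ∀ j, ∃ g, Good W g ∧ ((g ≤ j ∧ ∀ g', g' ≤ j → Good W g' → g' ≤ g) ∨
      ((∀ g', g' ≤ j → ¬ Good W g') ∧ ∀ g', Good W g' → g ≤ g')) := by
    intro j
    by_cases hj : ∃ g, g ≤ j ∧ Good W g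
    · have hne : ((Finset.range (j + 1)).filter (fun g => Good W g)).Nonempty := by
        obtain ⟨g, hg1, hg2⟩ := hj
        exact ⟨g, by simp only [Finset.mem_filter, Finset.mem_range]; exact ⟨by omega, hg2⟩⟩
      refine ⟨Finset.max' _ hne, ?_, Or.inl ⟨?_, fun g hg hGg => Finset.le_max' _ g ?_⟩⟩
      · have := Finset.max'_mem _ hne
        simp only [Finset.mem_filter, Finset.mem_range] at this
        exact this.2
      · have := Finset.max'_mem _ hne
        simp only [Finset.mem_filter, Finset.mem_range] at this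
        omega
      · simp only [Finset.mem_filter, Finset.mem_range]; exact ⟨by omega, hGg⟩
    · push Not at hj
      exact ⟨Nat.find hG0, Nat.find_spec hG0, Or.inr ⟨hj, fun g' hg' => Nat.find_min' hG0 hg'⟩⟩
  choose pg hpgG hpg using hpgex
  have hpg_good : ∀ g, Good W g → pg g = g := by
    intro g hg
    rcases hpg g with ⟨h1, h2⟩ | ⟨h1, _⟩
    · exact le_antisymm h1 (h2 g le_rfl hg)
    · exact absurd hg (h1 g le_rfl)
  have hpg_succ : ∀ j, pg (j + 1) ≠ pg j → Good W (j + 1) ∧ pg j ≤ j ∧
      ∀ g', g' ≤ j → Good W g' → g' ≤ pg j := by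
    intro j hne
    rcases hpg j with ⟨h1, h2⟩ | ⟨h1, h2⟩
    · refine ⟨?_, h1, h2⟩
      by_contra hng
      apply hne
      rcases hpg (j + 1) with ⟨h3, h4⟩ | ⟨h3, _⟩
      · have h5 : pg (j + 1) ≠ j + 1 := fun e => hng (e ▸ hpgG (j + 1))
        exact le_antisymm (h2 _ (by omega) (hpgG (j + 1))) (h4 _ (by omega) (hpgG j))
      · exact absurd (hpgG j) (h3 _ (by omega))
    · exfalso
      apply hne
      rcases hpg (j + 1) with ⟨h3, h4⟩ | ⟨h3, h4⟩
      · have h5 : j + 1 ≤ pg (j + 1) := by
          by_contra hc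
          exact h1 _ (by omega) (hpgG (j + 1))
        have h6 : pg (j + 1) = j + 1 := by omega
        have h7 : pg j ≤ pg (j + 1) := h2 _ (hpgG (j + 1))
        have h8 : ¬ pg j ≤ j := fun hc => h1 _ hc (hpgG j)
        omega
      · exact le_antisymm (h4 _ (hpgG j)) (h2 _ (hpgG (j + 1)))
  set S := (Finset.range N).filter (fun s => a (pg s) * a (pg (s + 1)) < 0) with hS
  have hSne : ∀ s ∈ S, pg (s + 1) ≠ pg s := by
    intro s hs he
    have := (Finset.mem_filter.1 hs).2
    rw [he] at this
    nlinarith [mul_self_nonneg (a (pg s))]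
  -- upper bound for the positive roots of `p`
  have hupper : Multiset.card (posR p) ≤ S.card := by
    have h1 := card_posR_le_card_add hp S
    have h2 : Multiset.card (posR (opD (wt S) p)) = 0 := by
      apply card_posR_eq_zero
      intro x hx
      have hRdeg : (opD (wt S) p).natDegree ≤ N := by
        rw [natDegree_le_iff_coeff_eq_zero]
        intro j hj
        rw [coeff_opD, coeff_eq_zero_of_natDegree_lt hj, mul_zero]
      have hReval : (opD (wt S) p).eval x = ∑ j ∈ Finset.range (N + 1), wt S j * a j * x ^ j := by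
        rw [eval_eq_sum_range' (Nat.lt_succ_of_le hRdeg)]
        apply Finset.sum_congr rfl
        intro j _
        rw [coeff_opD]
      -- constant sign
      set τ := wt S 0 * a (pg 0) with hτ
      have hτ0 : τ ≠ 0 := mul_ne_zero (wt_ne_zero S 0) (hane _ (hpgG 0))
      have hconst : ∀ j, j ≤ N → 0 < τ * (wt S j * a (pg j)) := by
        intro j
        induction j with
        | zero => intro _; exact mul_self_pos.2 hτ0
        | succ j ih =>
          intro hj
          have ih' := ih (by omega)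
          have hstep : 0 < (wt S (j + 1) * wt S j) * (a (pg j) * a (pg (j + 1))) := by
            by_cases hjS : j ∈ S
            · exact mul_pos_of_neg_of_neg (wt_succ_mul_neg hjS) (Finset.mem_filter.1 hjS).2
            · apply mul_pos (wt_succ_mul_pos hjS)
              have hnn : ¬ (a (pg j) * a (pg (j + 1)) < 0) := by
                intro hc
                exact hjS (Finset.mem_filter.2 ⟨Finset.mem_range.2 (by omega), hc⟩)
              push Not at hnn
              exact lt_of_le_of_ne hnn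
                (mul_ne_zero (hane _ (hpgG j)) (hane _ (hpgG (j + 1)))).symm
          have h3 : 0 < (τ * (wt S j * a (pg j))) *
              ((wt S (j + 1) * wt S j) * (a (pg j) * a (pg (j + 1)))) := mul_pos ih' hstep
          have h4 : (τ * (wt S j * a (pg j))) *
              ((wt S (j + 1) * wt S j) * (a (pg j) * a (pg (j + 1)))) =
              (τ * (wt S (j + 1) * a (pg (j + 1)))) * (wt S j * a (pg j)) ^ 2 := by ring
          rw [h4] at h3
          exact pos_of_mul_pos_left h3 (sq_nonneg _)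
      have hHpos := Hw_pos S hγ
      have hHsq := Hw_sq_le S hγ hr
      have hsum := sum_bad_lt_sum_good hAdm hHpos hHsq hx
      have hWH : ∀ j, W j * Hw S γ j * x ^ j = |wt S j * a j * x ^ j| := by
        intro j
        have h1 := hγ j
        rw [abs_mul, abs_mul, abs_of_pos (pow_pos hx j)]
        simp only [hW, Hw]
        field_simp
      simp only [hWH] at hsum
      rw [hReval]
      intro hzero
      have hsplit := Finset.sum_filter_add_sum_filter_not (Finset.range (N + 1))
        (fun j => Good W j) (fun j => wt S j * a j * x ^ j)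
      rw [hzero] at hsplit
      -- |good sum| = sum of absolute values
      have hgoodabs : |τ| * ∑ j ∈ (Finset.range (N + 1)).filter (fun j => Good W j),
          |wt S j * a j * x ^ j| =
          τ * ∑ j ∈ (Finset.range (N + 1)).filter (fun j => Good W j), wt S j * a j * x ^ j := by
        rw [Finset.mul_sum, Finset.mul_sum]
        apply Finset.sum_congr rfl
        intro j hj
        have hgj : Good W j := (Finset.mem_filter.1 hj).2
        have hc := hconst j (hGN j hgj)
        rw [hpg_good j hgj] at hc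
        rw [← abs_mul, abs_of_pos]
        have : τ * (wt S j * a j * x ^ j) = (τ * (wt S j * a j)) * x ^ j := by ring
        rw [this]
        exact mul_pos hc (pow_pos hx _)
      have hτpos : 0 < |τ| := abs_pos.2 hτ0
      have hbadabs : |τ * ∑ j ∈ (Finset.range (N + 1)).filter (fun j => ¬ Good W j),
          wt S j * a j * x ^ j| ≤ |τ| * ∑ j ∈ (Finset.range (N + 1)).filter (fun j => ¬ Good W j),
          |wt S j * a j * x ^ j| := by
        rw [abs_mul]
        exact mul_le_mul_of_nonneg_left (Finset.abs_sum_le_sum_abs _ _) hτpos.le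
      have h5 := mul_lt_mul_of_pos_left hsum hτpos
      rw [hgoodabs] at h5
      have h6 : τ * ∑ j ∈ (Finset.range (N + 1)).filter (fun j => Good W j), wt S j * a j * x ^ j =
          -(τ * ∑ j ∈ (Finset.range (N + 1)).filter (fun j => ¬ Good W j),
          wt S j * a j * x ^ j) := by linear_combination τ * hsplit
      have h7 := neg_abs_le (τ * ∑ j ∈ (Finset.range (N + 1)).filter (fun j => ¬ Good W j),
          wt S j * a j * x ^ j)
      linarith
    omega
  -- lower bound for the positive roots of `q`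
  have hroots : ∀ s, s ∈ S → ∃ r, y (pg s) < r ∧ r < y (s + 1) ∧ q.eval r = 0 := by
    intro s hs
    obtain ⟨hg1, hle, _⟩ := hpg_succ s (hSne s hs)
    have hneg := (Finset.mem_filter.1 hs).2
    rw [hpg_good (s + 1) hg1] at hneg
    have h1 := hsign (pg s) (hpgG s)
    have h2 := hsign (s + 1) hg1
    have hlt : y (pg s) < y (s + 1) := hymono _ _ (hpgG s) hg1 (by omega)
    have hcont : ContinuousOn (fun t => q.eval t) (Set.Icc (y (pg s)) (y (s + 1))) :=
      q.continuousOn
    rcases lt_or_gt_of_ne (hane (pg s) (hpgG s)) with h3 | h3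
    · have h4 : 0 < a (s + 1) := by
        by_contra hc; push Not at hc; nlinarith
      have h5 : q.eval (y (pg s)) < 0 := by
        by_contra hc; push Not at hc; nlinarith
      have h6 : 0 < q.eval (y (s + 1)) := pos_of_mul_pos_right h2 h4.le
      obtain ⟨r, hr1, hr2⟩ := intermediate_value_Ioo hlt.le hcont ⟨h5, h6⟩
      exact ⟨r, hr1.1, hr1.2, hr2⟩
    · have h4 : a (s + 1) < 0 := by
        by_contra hc; push Not at hc; nlinarith
      have h5 : q.eval (y (s + 1)) < 0 := by
        by_contra hc; push Not at hc; nlinarith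
      have h6 : 0 < q.eval (y (pg s)) := pos_of_mul_pos_right h1 h3.le
      obtain ⟨r, hr1, hr2⟩ := intermediate_value_Ioo' hlt.le hcont ⟨h5, h6⟩
      exact ⟨r, hr1.1, hr1.2, hr2⟩
  choose! r hr1 hr2 hr3 using hroots
  have hrmono : ∀ s ∈ S, ∀ s' ∈ S, s < s' → r s < r s' := by
    intro s hs s' hs' hlt
    obtain ⟨hg1, _, _⟩ := hpg_succ s (hSne s hs)
    obtain ⟨_, _, hmax⟩ := hpg_succ s' (hSne s' hs')
    have h1 : s + 1 ≤ pg s' := hmax _ (by omega) hg1
    have h2 : y (s + 1) ≤ y (pg s') := by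
      rcases Nat.lt_or_ge (s + 1) (pg s') with h3 | h3
      · exact (hymono _ _ hg1 (hpgG s') h3).le
      · have : s + 1 = pg s' := le_antisymm h1 h3
        rw [this]
    have := hr2 s hs
    have := hr1 s' hs'
    linarith
  have hlower : S.card ≤ Multiset.card (posR q) := by
    apply card_le_posR hq0 S r
    · intro s hs s' hs' he
      by_contra hne
      rcases lt_or_gt_of_ne hne with h1 | h1
      · exact absurd he (hrmono s hs s' hs' h1).ne
      · exact absurd he (hrmono s' hs' s hs h1).ne'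
    · intro s hs
      exact lt_trans (hypos _ (hpgG s)) (hr1 s hs)
    · exact hr3
  exact hupper.trans hlower

end Pool.Agent.Work.MP_2780b6_an
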