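import Mathlib
import Pool.Agent.Work.MP_2780b6_an.Main

set_option autoImplicit false

open Polynomial Finset

namespace Pool.Agent.Work.MP_2780b6_an

theorem coeff_comp_negX (p : ℝ[X]) (j : ℕ) : (p.comp (-X)).coeff j = (-1) ^ j * p.coeff j := by
  induction p using Polynomial.induction_on' with
  | add p q hp hq => rw [add_comp, coeff_add, hp, hq, coeff_add]; ring
  | monomial n c =>
    rw [← C_mul_X_pow_eq_monomial, mul_comp, C_comp, X_pow_comp]
    have : (-X : ℝ[X]) ^ n = C ((-1) ^ n) * X ^ n := by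
      rw [neg_pow, C_pow, C_neg, C_1]
    rw [this, ← mul_assoc, ← C_mul, coeff_C_mul_X_pow, coeff_C_mul_X_pow]
    split_ifs with h
    · subst h; ring
    · ring

theorem opD_comp_negX (γ : ℕ → ℝ) (p : ℝ[X]) : (opD γ p).comp (-X) = opD γ (p.comp (-X)) := by
  ext j
  rw [coeff_comp_negX, coeff_opD, coeff_opD, coeff_comp_negX]; ring

theorem card_split (s : Multiset ℝ) :
    Multiset.card s = Multiset.card (s.filter (fun x => 0 < x)) +
      Multiset.card ((s.map (fun x => -x)).filter (fun x => 0 < x)) + s.count 0 := by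
  induction s using Multiset.induction_on with
  | empty => simp
  | cons a s ih =>
    rw [Multiset.card_cons, ih, Multiset.map_cons]
    rcases lt_trichotomy a 0 with h | h | h
    · rw [Multiset.filter_cons_of_neg _ (by linarith), Multiset.filter_cons_of_pos _ (by linarith),
        Multiset.count_cons_of_ne h.ne', Multiset.card_cons]
      ring
    · subst h
      rw [Multiset.filter_cons_of_neg _ (by simp), Multiset.filter_cons_of_neg _ (by simp),
        Multiset.count_cons_self]
      ring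
    · rw [Multiset.filter_cons_of_pos _ h, Multiset.filter_cons_of_neg _ (by linarith),
        Multiset.count_cons_of_ne h.ne, Multiset.card_cons]
      ring

theorem card_roots_split (p : ℝ[X]) : Multiset.card p.roots =
    Multiset.card (posR p) + Multiset.card (posR (p.comp (-X))) + p.rootMultiplicity 0 := by
  rw [card_split p.roots, posR, posR, roots_comp_neg_X, count_roots]

theorem card_roots_le {γ : ℕ → ℝ} (hγ : ∀ k, 0 < γ k)
    (hr : ∀ k, 400 * (γ k * γ (k + 2)) ≤ γ (k + 1) ^ 2) {p : ℝ[X]} (hp : p ≠ 0) :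
    Multiset.card p.roots ≤ Multiset.card (opD γ p).roots := by
  rw [card_roots_split p, card_roots_split (opD γ p)]
  have hq0 : opD γ p ≠ 0 := opD_ne_zero (fun j => (hγ j).ne') hp
  have h1 := card_posR_le hγ hr hp
  have h2 : Multiset.card (posR (p.comp (-X))) ≤ Multiset.card (posR ((opD γ p).comp (-X))) := by
    rw [opD_comp_negX]
    exact card_posR_le hγ hr (by rwa [Ne, comp_neg_X_eq_zero_iff])
  have h3 : p.rootMultiplicity 0 ≤ (opD γ p).rootMultiplicity 0 := by
    rw [le_rootMultiplicity_iff hq0, C_0, sub_zero, X_pow_dvd_iff]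
    intro d hd
    have h4 := p.pow_rootMultiplicity_dvd 0
    rw [C_0, sub_zero, X_pow_dvd_iff] at h4
    rw [coeff_opD, h4 d hd, mul_zero]
  omega

theorem natDegree_opD {γ : ℕ → ℝ} (hγ : ∀ k, 0 < γ k) (p : ℝ[X]) :
    (opD γ p).natDegree = p.natDegree := by
  apply natDegree_eq_of_degree_eq
  have : (opD γ p).support = p.support := by
    ext j
    rw [mem_support_iff, mem_support_iff, coeff_opD]
    simp [(hγ j).ne']
  rw [degree, degree, this]

/-- number of non-real zeros with multiplicity -/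
noncomputable def Zc (p : ℝ[X]) : ℕ :=
  Multiset.card ((p.map (algebraMap ℝ ℂ)).roots.filter (fun z => z.im ≠ 0))

theorem real_part_roots (p : ℝ[X]) :
    (p.map (algebraMap ℝ ℂ)).roots.filter (fun z => ¬ z.im ≠ 0) =
      p.roots.map (algebraMap ℝ ℂ) := by
  classical
  ext z
  by_cases hz : z.im = 0
  · have hz' : z = algebraMap ℝ ℂ z.re := by
      apply Complex.ext <;> simp [hz]
    rw [Multiset.count_filter_of_pos (by simpa using hz), hz', count_roots,
      Multiset.count_map_eq_count' _ _ (algebraMap ℝ ℂ).injective, count_roots,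
      ← eq_rootMultiplicity_map (algebraMap ℝ ℂ).injective]
  · rw [Multiset.count_filter_of_neg (by simpa using hz)]
    symm
    rw [Multiset.count_eq_zero]
    intro hmem
    obtain ⟨x, _, hx⟩ := Multiset.mem_map.1 hmem
    apply hz
    rw [← hx]
    simp

theorem Zc_add (p : ℝ[X]) : Zc p + Multiset.card p.roots = p.natDegree := by
  classical
  have h1 := Multiset.filter_add_not (fun z : ℂ => z.im ≠ 0) (p.map (algebraMap ℝ ℂ)).roots
  have h2 := congrArg Multiset.card h1
  rw [Multiset.card_add, real_part_roots, Multiset.card_map] at h2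
  unfold Zc
  rw [h2]
  have h3 := (IsAlgClosed.splits (p.map (algebraMap ℝ ℂ))).natDegree_eq_card_roots
  rw [← h3, natDegree_map]

theorem Zc_opD_le {γ : ℕ → ℝ} (hγ : ∀ k, 0 < γ k)
    (hr : ∀ k, 400 * (γ k * γ (k + 2)) ≤ γ (k + 1) ^ 2) (p : ℝ[X]) :
    Zc (opD γ p) ≤ Zc p := by
  by_cases hp : p = 0
  · subst hp
    have : opD γ 0 = 0 := by ext j; rw [coeff_opD]; simp
    rw [this]
  have h1 := Zc_add p
  have h2 := Zc_add (opD γ p)
  rw [natDegree_opD hγ] at h2
  have h3 := card_roots_le hγ hr hp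
  omega

theorem exp_cubic_ratio (k : ℕ) :
    400 * (Real.exp (-((k : ℕ) : ℝ) ^ 3) * Real.exp (-(((k + 2 : ℕ)) : ℝ) ^ 3)) ≤
      Real.exp (-(((k + 1 : ℕ)) : ℝ) ^ 3) ^ 2 := by
  have h6 : (400 : ℝ) ≤ Real.exp 6 := by
    have h1 := Real.exp_one_gt_d9
    have h2 : Real.exp 6 = Real.exp 1 ^ 6 := by
      rw [← Real.exp_nat_mul]; norm_num
    rw [h2]
    calc (400 : ℝ) ≤ 2.7182818283 ^ 6 := by norm_num
      _ ≤ Real.exp 1 ^ 6 := pow_le_pow_left₀ (by norm_num) h1.le 6
  have h7 : Real.exp 6 ≤ Real.exp (6 * (k : ℝ) + 6) := by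
    apply Real.exp_le_exp.2
    have : (0 : ℝ) ≤ k := Nat.cast_nonneg k
    linarith
  have h8 : Real.exp (-(((k + 1 : ℕ)) : ℝ) ^ 3) ^ 2 =
      Real.exp (6 * (k : ℝ) + 6) * (Real.exp (-((k : ℕ) : ℝ) ^ 3) *
        Real.exp (-(((k + 2 : ℕ)) : ℝ) ^ 3)) := by
    rw [← Real.exp_add, ← Real.exp_add, ← Real.exp_nat_mul]
    congr 1
    push_cast
    ring
  rw [h8]
  exact mul_le_mul_of_nonneg_right (h6.trans h7) (by positivity)

end Pool.Agent.Work.MP_2780b6_an
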